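import Mathlib
import Pool.Agent.Helper44.TOT.Defs

/-!
# TOT-W9x: the claim for primes from Step3 and the averaging properties
-/

set_option autoImplicit false

namespace Pool.Agent.Helper55.TOT

open Pool.Agent.Helper44.TOT

/-- monotonicity of `blk` on primes -/
lemma blk_le_of_imp {P Q : ℕ → Prop} (h : ∀ q : ℕ, q.Prime → P q → Q q) (y : ℕ) :
    blk P y ≤ blk Q y := by
  classical
  unfold blk
  refine Finset.card_le_card fun q hq => ?_
  rw [Finset.mem_filter] at hq ⊢
  exact ⟨hq.1, hq.2.1, h q hq.2.1 hq.2.2⟩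

lemma Small.mono {P Q : ℕ → Prop} (h : ∀ q : ℕ, q.Prime → P q → Q q) (hQ : Small Q) :
    Small P := by
  intro θ hθ
  obtain ⟨X, hX⟩ := hQ θ hθ
  refine ⟨X, fun y hy => le_trans ?_ (hX y hy)⟩
  exact_mod_cast blk_le_of_imp h y

lemma blk_or (P Q : ℕ → Prop) (y : ℕ) :
    blk (fun q => P q ∨ Q q) y ≤ blk P y + blk Q y := by
  classical
  unfold blk
  refine le_trans (Finset.card_le_card ?_) (Finset.card_union_le _ _)
  intro q hq
  simp only [Finset.mem_union, Finset.mem_filter] at hq ⊢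
  rcases hq.2.2 with h | h
  · exact Or.inl ⟨hq.1, hq.2.1, h⟩
  · exact Or.inr ⟨hq.1, hq.2.1, h⟩

lemma Small.or {P Q : ℕ → Prop} (hP : Small P) (hQ : Small Q) :
    Small (fun q => P q ∨ Q q) := by
  intro θ hθ
  obtain ⟨X, hX⟩ := hP (θ / 2) (half_pos hθ)
  obtain ⟨Y, hY⟩ := hQ (θ / 2) (half_pos hθ)
  refine ⟨max X Y, fun y hy => ?_⟩
  have h1 := hX y (le_trans (le_max_left _ _) hy)
  have h2 := hY y (le_trans (le_max_right _ _) hy)
  have h3 : (blk (fun q => P q ∨ Q q) y : ℝ) ≤ blk P y + blk Q y := by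
    exact_mod_cast blk_or P Q y
  calc (blk (fun q => P q ∨ Q q) y : ℝ) ≤ blk P y + blk Q y := h3
    _ ≤ θ / 2 * (y / Real.log y) + θ / 2 * (y / Real.log y) := add_le_add h1 h2
    _ = θ * (y / Real.log y) := by ring

lemma small_of_false {P : ℕ → Prop} (h : ∀ q : ℕ, q.Prime → ¬ P q) : Small P := by
  classical
  intro θ hθ
  refine ⟨2, fun y hy => ?_⟩
  have h0 : blk P y = 0 := by
    unfold blk
    rw [Finset.card_eq_zero, Finset.filter_eq_empty_iff]
    rintro q _ ⟨h1, h2⟩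
    exact h q h1 h2
  rw [h0]
  have h1 : (0 : ℝ) ≤ Real.log y := Real.log_natCast_nonneg y
  push_cast
  positivity

theorem primesClaim (h1 : Step3) (h2 : GGavg) : PrimesClaim := by
  obtain ⟨-, hgg, -, -⟩ := h2
  by_cases htriv : Small (fun _ => True)
  · exact ⟨0, fun ε _ => Small.mono (fun _ _ _ => trivial) htriv⟩
  -- the lower edge
  set A : Set ℝ := {t | Small (fun q => gg q < t)} with hA
  have hA0 : (0 : ℝ) ∈ A :=
    small_of_false fun q hq h => absurd h (not_lt.mpr (hgg q hq.two_le).1)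
  have hAub : ∀ t ∈ A, t ≤ 3 / 2 := by
    intro t ht
    by_contra h
    push Not at h
    exact htriv (Small.mono (fun q hq _ => lt_of_le_of_lt (hgg q hq.two_le).2 h) ht)
  have hAbdd : BddAbove A := ⟨3 / 2, hAub⟩
  have hlow : LowEdge (sSup A) := by
    refine ⟨le_csSup hAbdd hA0, csSup_le ⟨0, hA0⟩ hAub, fun t ht => ?_, fun t ht hs => ?_⟩
    · obtain ⟨t', ht', htt⟩ := exists_lt_of_lt_csSup ⟨0, hA0⟩ ht
      exact Small.mono (fun q _ h => lt_trans h htt) ht'
    · exact absurd (le_csSup hAbdd (show t ∈ A from hs)) (not_le.mpr ht)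
  -- the upper edge
  set B : Set ℝ := {t | Small (fun q => t < gg q)} with hB
  have hB0 : (3 / 2 : ℝ) ∈ B :=
    small_of_false fun q hq h => absurd h (not_lt.mpr (hgg q hq.two_le).2)
  have hBlb : ∀ t ∈ B, 0 ≤ t := by
    intro t ht
    by_contra h
    push Not at h
    exact htriv (Small.mono (fun q hq _ => lt_of_lt_of_le h (hgg q hq.two_le).1) ht)
  have hBbdd : BddBelow B := ⟨0, hBlb⟩
  have hhigh : HighEdge (sInf B) := by
    refine ⟨le_csInf ⟨_, hB0⟩ hBlb, csInf_le hBbdd hB0, fun t ht => ?_, fun t ht hs => ?_⟩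
    · obtain ⟨t', ht', htt⟩ := exists_lt_of_csInf_lt ⟨_, hB0⟩ ht
      exact Small.mono (fun q _ h => lt_trans htt h) ht'
    · exact absurd (csInf_le hBbdd (show t ∈ B from hs)) (not_le.mpr ht)
  have hle := h1 _ _ hlow hhigh
  refine ⟨sInf B, fun ε hε => ?_⟩
  have hl := hlow.below (sInf B - ε) (by linarith)
  have hh := hhigh.above (sInf B + ε) (by linarith)
  refine Small.mono (fun q _ hq => ?_) (Small.or hl hh)
  rcases lt_abs.mp hq with h | h
  · exact Or.inr (by linarith)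
  · exact Or.inl (by linarith)

end Pool.Agent.Helper55.TOT
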